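import Mathlib
import Pool.Agent.Helper69.DC.Goals

/-!
Packet DC-CNT: the count.
-/

namespace Pool.Agent.Helper85.DC

open MvPolynomial Finset ComplexConjugate
open Pool.Agent.Helper69.DC

section hf

variable {N : ℕ}

lemma hf_add_left (x y z : Fin (N + 1) → ℂ) : hf (x + y) z = hf x z + hf y z := by
  unfold hf
  simp only [Pi.add_apply, add_mul, Finset.sum_add_distrib]
  ring

lemma hf_smul_left (c : ℂ) (x z : Fin (N + 1) → ℂ) : hf (c • x) z = c * hf x z := by
  unfold hf
  simp only [Pi.smul_apply, smul_eq_mul, mul_sub, Finset.mul_sum]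
  congr 1
  · ring
  · exact Finset.sum_congr rfl fun j _ => by ring

lemma hf_add_right (x y z : Fin (N + 1) → ℂ) : hf x (y + z) = hf x y + hf x z := by
  unfold hf
  simp only [Pi.add_apply, map_add, mul_add, Finset.sum_add_distrib]
  ring

lemma hf_smul_right (c : ℂ) (x z : Fin (N + 1) → ℂ) : hf x (c • z) = conj c * hf x z := by
  unfold hf
  simp only [Pi.smul_apply, smul_eq_mul, mul_sub, Finset.mul_sum, map_mul]
  congr 1
  · ring
  · exact Finset.sum_congr rfl fun j _ => by ring

/-- `hf` as a linear functional in the first variable. -/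
noncomputable def hl (z : Fin (N + 1) → ℂ) : (Fin (N + 1) → ℂ) →ₗ[ℂ] ℂ where
  toFun x := hf x z
  map_add' x y := hf_add_left x y z
  map_smul' c x := hf_smul_left c x z

/-- `hf` as an additive map in the second variable. -/
noncomputable def hr (x : Fin (N + 1) → ℂ) : (Fin (N + 1) → ℂ) →+ ℂ where
  toFun z := hf x z
  map_zero' := by simp [hf]
  map_add' y z := hf_add_right x y z

lemma hf_sum_left {ι : Type} (s : Finset ι) (x : ι → Fin (N + 1) → ℂ) (z : Fin (N + 1) → ℂ) :
    hf (∑ i ∈ s, x i) z = ∑ i ∈ s, hf (x i) z := map_sum (hl z) x s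

lemma hf_sum_right {ι : Type} (s : Finset ι) (x : Fin (N + 1) → ℂ) (z : ι → Fin (N + 1) → ℂ) :
    hf x (∑ i ∈ s, z i) = ∑ i ∈ s, hf x (z i) := map_sum (hr x) z s

lemma hl_ne_zero (z : Fin (N + 1) → ℂ) (hz : z ≠ 0) : hl z ≠ 0 := by
  intro h
  apply hz
  funext k
  have h1 : hl z (Pi.single k 1) = 0 := by rw [h]; rfl
  change hf (Pi.single k 1) z = 0 at h1
  unfold hf at h1
  revert h1
  refine Fin.cases (fun h1 => ?_) (fun l h1 => ?_) k
  · simpa using h1
  · rw [Finset.sum_eq_single l] at h1
    · simpa using h1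
    · intro b _ hb
      have : (Pi.single l.succ (1 : ℂ) : Fin (N + 1) → ℂ) b.succ = 0 := by
        rw [Pi.single_apply, if_neg]
        intro h
        exact hb (Fin.succ_injective _ h)
      rw [this, zero_mul]
    · intro h
      exact absurd (Finset.mem_univ l) h

end hf

section poly

variable {m N : ℕ}

/-- The universal version of `la`, with polynomial coefficients in `v`. -/
noncomputable def laP (f : Fin (N + 1) → MvPolynomial (Fin m ⊕ Unit) ℂ)
    (β : Fin m → ℂ) (a : ℂ) (k : Fin (N + 1)) : Polynomial (MvPolynomial (Fin m) ℂ) :=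
  aeval (Sum.elim
    (fun i => Polynomial.C (MvPolynomial.C (β i)) + Polynomial.C (MvPolynomial.X i) * Polynomial.X)
    (fun _ => Polynomial.C (MvPolynomial.C a) +
      Polynomial.C (∑ i, MvPolynomial.X i * MvPolynomial.C (conj (β i))) * Polynomial.X)) (f k)

lemma map_laP (f : Fin (N + 1) → MvPolynomial (Fin m ⊕ Unit) ℂ)
    (β : Fin m → ℂ) (a : ℂ) (k : Fin (N + 1)) (v : Fin m → ℂ) :
    (laP f β a k).map (MvPolynomial.eval v) = la f β a v (∑ i, v i * conj (β i)) k := by
  unfold laP la
  generalize f k = p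
  induction p using MvPolynomial.induction_on with
  | C c =>
    rw [MvPolynomial.aeval_C, MvPolynomial.aeval_C]
    change Polynomial.map (MvPolynomial.eval v) (Polynomial.C (MvPolynomial.C c)) = Polynomial.C c
    simp
  | add p q hp hq => simp only [map_add, Polynomial.map_add, hp, hq]
  | mul_X p i hp =>
    simp only [map_mul, Polynomial.map_mul, hp, MvPolynomial.aeval_X]
    congr 1
    cases i with
    | inl i => simp
    | inr i => simp [map_sum, Polynomial.map_sum]

lemma AJ_eq_eval (f : Fin (N + 1) → MvPolynomial (Fin m ⊕ Unit) ℂ)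
    (β : Fin m → ℂ) (a : ℂ) (v : Fin m → ℂ) (j : ℕ) (k : Fin (N + 1)) :
    AJ f β a v j k = MvPolynomial.eval v ((laP f β a k).coeff j) := by
  unfold AJ
  rw [← map_laP, Polynomial.coeff_map]

/-- If the vectors `A_j(v₀)` are independent, there is a polynomial `P ≠ 0` such that the vectors
`A_j(v)` are independent whenever `P(v) ≠ 0`. -/
lemma exists_det (d : ℕ) (f : Fin (N + 1) → MvPolynomial (Fin m ⊕ Unit) ℂ)
    (β : Fin m → ℂ) (a : ℂ) (v₀ : Fin m → ℂ)
    (h : LinearIndependent ℂ (fun j : Fin (d + 1) => AJ f β a v₀ j)) :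
    ∃ P : MvPolynomial (Fin m) ℂ, P ≠ 0 ∧ ∀ v : Fin m → ℂ, MvPolynomial.eval v P ≠ 0 →
      LinearIndependent ℂ (fun j : Fin (d + 1) => AJ f β a v j) := by
  classical
  have hinj := linearIndependent_iff_injective_fintypeLinearCombination.mp h
  obtain ⟨π, hπ⟩ := LinearMap.exists_leftInverse_of_injective
    (Fintype.linearCombination ℂ (fun j : Fin (d + 1) => AJ f β a v₀ j))
    (LinearMap.ker_eq_bot.mpr hinj)
  have hπ1 : ∀ j : Fin (d + 1), π (AJ f β a v₀ j) = Pi.single j 1 := by
    intro j
    have := congrArg (fun T : (Fin (d + 1) → ℂ) →ₗ[ℂ] (Fin (d + 1) → ℂ) => T (Pi.single j 1)) hπ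
    simpa [Fintype.linearCombination_apply_single] using this
  let M : Matrix (Fin (d + 1)) (Fin (d + 1)) (MvPolynomial (Fin m) ℂ) :=
    Matrix.of fun i j => ∑ k, (laP f β a k).coeff j *
      MvPolynomial.C (π (fun l => if k = l then 1 else 0) i)
  have hM : ∀ v : Fin m → ℂ, MvPolynomial.eval v M.det =
      (Matrix.of fun i j : Fin (d + 1) => π (AJ f β a v j) i).det := by
    intro v
    rw [RingHom.map_det]
    congr 1
    ext i j
    simp only [M, RingHom.mapMatrix_apply, Matrix.map_apply, Matrix.of_apply, map_sum, map_mul,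
      MvPolynomial.eval_C, ← AJ_eq_eval]
    rw [LinearMap.pi_apply_eq_sum_univ π (AJ f β a v j)]
    simp [Finset.sum_apply]
  refine ⟨M.det, ?_, ?_⟩
  · intro h0
    have h1 := hM v₀
    rw [h0, map_zero] at h1
    have h2 : (Matrix.of fun i j : Fin (d + 1) => π (AJ f β a v₀ j) i) = 1 := by
      ext i j
      rw [Matrix.of_apply, hπ1, Matrix.one_apply, Pi.single_apply]
    rw [h2, Matrix.det_one] at h1
    exact zero_ne_one h1
  · intro v hv
    rw [hM] at hv
    have h3 := Matrix.linearIndependent_cols_of_det_ne_zero hv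
    exact LinearIndependent.of_comp π h3

end poly

/-- **G_CNT**. -/
theorem g_cnt (h1 : Pool.Agent.Helper69.DC.G_HF2) (h2 : Pool.Agent.Helper69.DC.G_AJO)
    (h3 : Pool.Agent.Helper69.DC.G_OB) : Pool.Agent.Helper69.DC.G_CNT := by
  classical
  intro m N d f hS β a hnull hA0 v₀ hind
  obtain ⟨hort, hAz, hA0v, -, -⟩ := h2 m N d f hS β a hnull
  obtain ⟨P, hP0, hP⟩ := exists_det d f β a v₀ hind
  obtain ⟨e, he, -, hPe⟩ := h3 m P hP0
  have hinde : ∀ i, LinearIndependent ℂ (fun j : Fin (d + 1) => AJ f β a (e i) j) :=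
    fun i => hP _ (hPe i)
  set A0 := fv f β a with hA0d
  have hA00 : hf A0 A0 = 0 := hS.orth β a β a hnull
  -- the family
  let F : Option (Fin m × Fin d) → Fin (N + 1) → ℂ :=
    fun o => Option.elim o A0 (fun p => AJ f β a (e p.1) ((p.2 : ℕ) + 1))
  have hFk : ∀ o, hl A0 (F o) = 0 := by
    rintro (_ | p)
    · exact hA00
    · exact hAz _ _
  have hF : LinearIndependent ℂ F := by
    rw [Fintype.linearIndependent_iff]
    intro g hg
    rw [Fintype.sum_option, Fintype.sum_prod_type] at hg
    simp only [F, Option.elim] at hg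
    set w : Fin m → Fin (N + 1) → ℂ :=
      fun i => ∑ j : Fin d, g (some (i, j)) • AJ f β a (e i) ((j : ℕ) + 1) with hw
    have hwl : ∀ i l, i ≠ l → hf (w i) (w l) = 0 := by
      intro i l hil
      rw [hw]
      simp only []
      rw [hf_sum_left]
      refine Finset.sum_eq_zero fun x _ => ?_
      rw [hf_smul_left, hf_sum_right]
      refine mul_eq_zero_of_right _ (Finset.sum_eq_zero fun y _ => ?_)
      rw [hf_smul_right, hort (e i) (e l) (he i l hil), mul_zero]
    have hwA : ∀ i, hf (w i) A0 = 0 := by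
      intro i
      rw [hw]
      simp only []
      rw [hf_sum_left]
      refine Finset.sum_eq_zero fun x _ => ?_
      rw [hf_smul_left, hAz, mul_zero]
    have hsum : ∑ i, w i = (-g none) • A0 := by
      rw [neg_smul]
      exact eq_neg_of_add_eq_zero_right hg
    have hww : ∀ i, hf (w i) (w i) = 0 := by
      intro i
      have h4 : hf (w i) (∑ l, w l) = hf (w i) (w i) := by
        rw [hf_sum_right, Finset.sum_eq_single i]
        · intro l _ hl
          exact hwl i l (Ne.symm hl)
        · intro h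
          exact absurd (Finset.mem_univ i) h
      rw [← h4, hsum, hf_smul_right, hwA, mul_zero]
    have hgi : ∀ i j, g (some (i, j)) = 0 := by
      intro i
      obtain ⟨c, hc⟩ := h1 N A0 (w i) hA0 hA00 (hww i) (hwA i)
      have h5 := (Fintype.linearIndependent_iff.mp (hinde i))
        (Fin.cons (-c) fun j => g (some (i, j))) (by
          rw [Fin.sum_univ_succ]
          simp only [Fin.cons_zero, Fin.cons_succ, Fin.val_zero, Fin.val_succ]
          rw [hA0v]
          change (-c) • A0 + w i = 0
          rw [hc, neg_smul, neg_add_cancel])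
      intro j
      simpa using h5 j.succ
    have hw0 : ∀ i, w i = 0 := by
      intro i
      rw [hw]
      simp only []
      exact Finset.sum_eq_zero fun j _ => by rw [hgi, zero_smul]
    have hg0 : g none = 0 := by
      have h6 : (-g none) • A0 = 0 := by
        rw [← hsum]
        exact Finset.sum_eq_zero fun i _ => hw0 i
      rcases smul_eq_zero.mp h6 with h7 | h7
      · exact neg_eq_zero.mp h7
      · exact absurd h7 hA0
    rintro (_ | ⟨i, j⟩)
    · exact hg0
    · exact hgi i j
  -- dimension count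
  have hne : hl A0 ≠ 0 := hl_ne_zero A0 hA0
  have hrange : LinearMap.range (hl A0) = ⊤ := LinearMap.range_eq_top.mpr (LinearMap.surjective hne)
  have hdim := LinearMap.finrank_range_add_finrank_ker (hl A0)
  rw [hrange, finrank_top, Module.finrank_self, Module.finrank_fin_fun] at hdim
  have hFker : LinearIndependent ℂ (fun o => (⟨F o, hFk o⟩ : LinearMap.ker (hl A0))) :=
    LinearIndependent.of_comp (LinearMap.ker (hl A0)).subtype hF
  have hcard := hFker.fintype_card_le_finrank
  rw [Fintype.card_option, Fintype.card_prod, Fintype.card_fin, Fintype.card_fin] at hcard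
  omega

end Pool.Agent.Helper85.DC
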