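import Mathlib
import Pool.Agent.Helper69.DC.Goals2

/-!
Packet DC-QD: divisibility by the bilinear form.
-/

namespace Pool.Agent.Helper85.DC

open MvPolynomial Finset ComplexConjugate
open Pool.Agent.Helper69.DC

section

variable {m : ℕ} {τ : Type} (y : Fin m → ℂ) (z : τ → ℂ)

lemma eval_ev2 (P : MvPolynomial (Fin m) (MvPolynomial τ ℂ)) :
    eval z (ev2 y P) = eval y (map (eval z) P) := by
  unfold ev2
  have h : ((eval z).comp (eval fun i => C (y i)) :
      MvPolynomial (Fin m) (MvPolynomial τ ℂ) →+* ℂ) = (eval y).comp (map (eval z)) := by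
    apply MvPolynomial.ringHom_ext
    · intro r
      simp
    · intro i
      simp
  exact congrArg (fun f : MvPolynomial (Fin m) (MvPolynomial τ ℂ) →+* ℂ => f P) h

lemma eq_zero_of_ev2 (P : MvPolynomial (Fin m) (MvPolynomial τ ℂ))
    (h : ∀ (y : Fin m → ℂ) (z : τ → ℂ), eval z (ev2 y P) = 0) : P = 0 := by
  ext1 α
  rw [coeff_zero]
  apply MvPolynomial.funext
  intro z
  have h1 : map (eval z) P = 0 := by
    apply MvPolynomial.funext
    intro y
    rw [← eval_ev2, h, map_zero]
  rw [← coeff_map, h1, coeff_zero, map_zero]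

end

lemma scale_hom {m : ℕ} {A : Type*} [CommRing A] (c : A) (q : MvPolynomial (Fin m) A) (n : ℕ)
    (hq : q.IsHomogeneous n) : aeval (fun j => C c * X j) q = C c ^ n * q := by
  rw [aeval_def, eval₂_eq']
  conv_rhs => rw [q.as_sum]
  rw [Finset.mul_sum]
  refine Finset.sum_congr rfl fun d hd => ?_
  have hdeg : ∑ i, d i = n := by
    have := hq (mem_support_iff.1 hd)
    rw [Finsupp.weight_apply] at this
    rw [← this, Finsupp.sum_fintype]
    · simp
    · simp
  simp only [mul_pow, Finset.prod_mul_distrib]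
  rw [Finset.prod_pow_eq_pow_sum, hdeg, monomial_eq, Finsupp.prod_fintype _ _ (by simp)]
  change C (coeff d q) * _ = _
  ring

lemma prime_eY {m : ℕ} (hm : 2 ≤ m) :
    Prime (eY : MvPolynomial (Fin m) (MvPolynomial (V3 m ⊕ Fin m) ℂ)) := by
  classical
  let c : Fin m →₀ MvPolynomial (V3 m ⊕ Fin m) ℂ := Finsupp.equivFunOnFinite.symm fun j =>
    X (Sum.inr j)
  have hc : sumSMulX c = eY := by
    rw [sumSMulX, Finsupp.linearCombination_apply, Finsupp.sum_fintype _ _ (by simp)]
    unfold eY
    refine Finset.sum_congr rfl fun j _ => ?_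
    rw [smul_eq_C_mul]
    rfl
  rw [← hc]
  apply Irreducible.prime
  let i0 : Fin m := ⟨0, by omega⟩
  let i1 : Fin m := ⟨1, by omega⟩
  apply irreducible_sumSMulX
  · exact ⟨i0, by rw [Finsupp.mem_support_iff]; exact X_ne_zero _⟩
  · intro r hr
    have h0 : r ∣ X (Sum.inr i0) := hr i0
    have h1 : r ∣ X (Sum.inr i1) := hr i1
    have hp0 : Irreducible (X (Sum.inr i0) : MvPolynomial (V3 m ⊕ Fin m) ℂ) := X_prime.irreducible
    rcases hp0.dvd_iff.1 h0 with h2 | h2
    · exact h2
    · exfalso
      have h3 : (X (Sum.inr i0) : MvPolynomial (V3 m ⊕ Fin m) ℂ) ∣ X (Sum.inr i1) :=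
        h2.dvd.trans h1
      rw [X_dvd_X] at h3
      have h4 : i0 = i1 := Sum.inr_injective h3
      have h5 := congrArg Fin.val h4
      simp [i0, i1] at h5

theorem h_qd : Pool.Agent.Helper69.DC.H_QD := by
  classical
  intro m q hm hq hv
  have hpr := prime_eY hm
  let i0 : Fin m := ⟨0, by omega⟩
  let A := MvPolynomial (V3 m ⊕ Fin m) ℂ
  let e0 : A := X (Sum.inr i0)
  -- the substitution
  let θ : MvPolynomial (Fin m) A →ₐ[A] MvPolynomial (Fin m) A :=
    aeval (fun j => C e0 * X j - (if j = i0 then eY else 0))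
  have h1 : θ q = 0 := by
    apply eq_zero_of_ev2
    intro y z
    rw [eval_ev2]
    let e : Fin m → ℂ := fun j => z (Sum.inr j)
    let y' : Fin m → ℂ := fun j => e i0 * y j - (if j = i0 then ∑ l, e l * y l else 0)
    have h2 : (((eval y).comp (map (eval z))).comp (θ : MvPolynomial (Fin m) A →+* _) :
        MvPolynomial (Fin m) A →+* ℂ) = (eval y').comp (map (eval z)) := by
      apply MvPolynomial.ringHom_ext
      · intro r
        simp
      · intro j
        simp only [RingHom.comp_apply, RingHom.coe_coe, θ, aeval_X, map_sub, map_mul, map_C, map_X,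
          eval_C, eval_X, y', e, e0, apply_ite, map_zero]
        congr 1
        split_ifs with h
        · unfold eY
          simp [map_sum]
        · rfl
    have h3 : eval y (map (eval z) (θ q)) = eval y' (map (eval z) q) :=
      congrArg (fun f : MvPolynomial (Fin m) A →+* ℂ => f q) h2
    rw [h3, ← eval_ev2]
    have h4 : z = Sum.elim (fun i => z (Sum.inl i)) e := by
      funext i
      cases i <;> rfl
    rw [h4]
    apply hv
    have h5 : ∀ j, e j * y' j = e i0 * (e j * y j) -
        (if j = i0 then e j * ∑ l, e l * y l else 0) := by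
      intro j
      simp only [y']
      split_ifs <;> ring
    simp only [h5]
    rw [Finset.sum_sub_distrib, ← Finset.mul_sum, Finset.sum_ite_eq' Finset.univ i0,
      if_pos (Finset.mem_univ _), sub_self]
  -- modulo `eY` it is the scaling
  have h6 : eY ∣ C e0 ^ 2 * q := by
    rw [← scale_hom e0 q 2 hq]
    have h7 : (Ideal.Quotient.mk (Ideal.span {eY})).comp (θ : MvPolynomial (Fin m) A →+* _) =
        (Ideal.Quotient.mk (Ideal.span {(eY : MvPolynomial (Fin m) A)})).comp
          ((aeval fun j => C e0 * X j : MvPolynomial (Fin m) A →ₐ[A] MvPolynomial (Fin m) A) :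
            MvPolynomial (Fin m) A →+* _) := by
      apply MvPolynomial.ringHom_ext
      · intro r
        simp
      · intro j
        simp only [RingHom.comp_apply, RingHom.coe_coe, θ, aeval_X]
        rw [Ideal.Quotient.eq]
        split_ifs
        · rw [sub_sub_cancel_left]
          exact neg_mem (Ideal.mem_span_singleton_self _)
        · simp
    have h8 := congrArg (fun f : MvPolynomial (Fin m) A →+* _ => f q) h7
    simp only [RingHom.comp_apply, RingHom.coe_coe] at h8
    rw [h1, map_zero] at h8
    rw [← Ideal.mem_span_singleton, ← Ideal.Quotient.eq_zero_iff_mem]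
    exact h8.symm
  rcases hpr.dvd_or_dvd h6 with h7 | h7
  · exfalso
    have h8 := hpr.dvd_of_dvd_pow h7
    obtain ⟨g, hg⟩ := h8
    have h9 := congrArg constantCoeff hg
    rw [map_mul, constantCoeff_C] at h9
    have h10 : constantCoeff (eY : MvPolynomial (Fin m) A) = 0 := by
      unfold eY
      rw [map_sum]
      refine Finset.sum_eq_zero fun j _ => ?_
      rw [map_mul, constantCoeff_X, mul_zero]
    rw [h10, zero_mul] at h9
    exact X_ne_zero _ h9
  · exact h7

end Pool.Agent.Helper85.DC
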